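import Mathlib
import Pool.Agent.X266.IDM.Mat

/-!
# Independent domination versus the saturation number: regular counterexamples

For every `k` there is a cubic graph with `90 k` vertices, independent domination number `28 k` and
saturation number at most `27 k`; for `k = 1` it is connected. So `i(G) ≤ μ*(G)` fails for
`3`-regular graphs, and the difference `i(G) - μ*(G)` is unbounded.

The graph comes from a set of 36 clauses with three literals in 27 variables which is not
satisfiable and in which every literal occurs exactly twice: vertices are the literals and the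
clauses; a literal is adjacent to its negation and to its two clauses. The 27 edges between
opposite literals form a maximal matching. An independent dominating set `I` consists of the
chosen literals and of the clauses without chosen literal; a variable may have no chosen literal,
but then both its literals have a clause in `I`. The formula is made of four gadgets, for each of
which the local excess (clauses in `I` minus variables without chosen literal) is nonnegative, and
positive if a global literal of the gadget is dominated from the gadget or if no global literal of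
the gadget is chosen.
-/

set_option autoImplicit false

open Finset

namespace Pool.Agent.Results.MP_763dcb_co.NinetyVertices

open Pool.Agent.X266.IDM

/-- `S` is independent: no two of its vertices are adjacent. -/
def IsIndependent {V : Type} (G : SimpleGraph V) (S : Finset V) : Prop :=
  ∀ u ∈ S, ∀ v ∈ S, ¬ G.Adj u v

/-- `S` is dominating: every vertex outside `S` has a neighbour in `S`. -/
def IsDominating {V : Type} (G : SimpleGraph V) (S : Finset V) : Prop :=
  ∀ v, v ∉ S → ∃ u ∈ S, G.Adj v u

/-- `i(G)`: the least size of a set which is independent and dominating. -/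
noncomputable def indepDomNumber {V : Type} (G : SimpleGraph V) : ℕ :=
  sInf {k | ∃ S : Finset V, IsIndependent G S ∧ IsDominating G S ∧ S.card = k}

/-- A matching: a set of pairwise vertex-disjoint edges. -/
def IsMatching {V : Type} (G : SimpleGraph V) (M : Finset (Sym2 V)) : Prop :=
  (∀ e ∈ M, e ∈ G.edgeSet) ∧ ∀ e ∈ M, ∀ f ∈ M, e ≠ f → ∀ v, v ∈ e → v ∉ f

/-- A maximal matching: a matching contained in no larger matching. -/
def IsMaximalMatching {V : Type} (G : SimpleGraph V) (M : Finset (Sym2 V)) : Prop :=
  IsMatching G M ∧ ∀ M' : Finset (Sym2 V), M ⊆ M' → IsMatching G M' → M' = M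

/-- `μ*(G)`: the least number of edges of a maximal matching. -/
noncomputable def saturationNumber {V : Type} (G : SimpleGraph V) : ℕ :=
  sInf {k | ∃ M : Finset (Sym2 V), IsMaximalMatching G M ∧ M.card = k}

/-- `k` disjoint copies of the graph. -/
def Gk (k : ℕ) : SimpleGraph (Fin k × W) where
  Adj x y := x.1 = y.1 ∧ ∃ i, nb x.2 i = y.2
  symm := ⟨by
    rintro x y ⟨h1, i, hi⟩
    obtain ⟨j, hj⟩ := nb_symm x.2 i
    exact ⟨h1.symm, j, by rw [← hi]; exact hj⟩⟩
  loopless := ⟨by
    rintro x ⟨_, i, hi⟩
    exact nb_ne x.2 i hi⟩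

theorem regular (k : ℕ) (x : Fin k × W) : ((Gk k).neighborSet x).ncard = 3 := by
  have h : (Gk k).neighborSet x = (fun i : Fin 3 => (x.1, nb x.2 i)) '' Set.univ := by
    ext y
    rw [SimpleGraph.mem_neighborSet]
    constructor
    · rintro ⟨h1, i, hi⟩
      exact ⟨i, Set.mem_univ _, Prod.ext h1 hi⟩
    · rintro ⟨i, _, rfl⟩
      exact ⟨rfl, i, rfl⟩
  rw [h, Set.ncard_image_of_injective _ (fun i j hij => nb_inj x.2 i j (Prod.ext_iff.1 hij).2),
    Set.ncard_univ, Nat.card_eq_fintype_card, Fintype.card_fin]

theorem card_sum {α : Type} [Fintype α] [DecidableEq α] (S : Finset α) :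
    S.card = ∑ x : α, (decide (x ∈ S)).toNat := by
  rw [Finset.card_eq_sum_ones, ← Finset.sum_subset (Finset.subset_univ S)
    (f := fun x => (decide (x ∈ S)).toNat)]
  · exact Finset.sum_congr rfl (fun x hx => by simp [hx])
  · intro x _ hx
    simp [hx]

theorem lower_bound (k : ℕ) (S : Finset (Fin k × W)) (h1 : IsIndependent (Gk k) S)
    (h2 : IsDominating (Gk k) S) : 28 * k ≤ S.card := by
  rw [card_sum S, Fintype.sum_prod_type]
  have h : ∀ a : Fin k, 28 ≤ ∑ v : W, (decide ((a, v) ∈ S)).toNat := by
    intro a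
    refine lower (fun v => decide ((a, v) ∈ S)) ?_
    intro v
    have h3 : ∀ i : Fin 3, (a, v) ∈ S → (a, nb v i) ∉ S := fun i hv hw =>
      h1 _ hv _ hw ⟨rfl, i, rfl⟩
    by_cases hv : (a, v) ∈ S
    · simp [hv, h3 0 hv, h3 1 hv, h3 2 hv]
    · obtain ⟨u, hu, hau, i, hi⟩ := h2 _ hv
      have hu' : (a, nb v i) ∈ S := by
        have : u = (a, nb v i) := Prod.ext hau.symm hi.symm
        rw [← this]; exact hu
      have h5 : (decide ((a, nb v 0) ∈ S) || decide ((a, nb v 1) ∈ S) ||
          decide ((a, nb v 2) ∈ S)) = true := by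
        fin_cases i
        · rw [decide_eq_true (show (a, nb v 0) ∈ S from hu')]; rfl
        · rw [decide_eq_true (show (a, nb v 1) ∈ S from hu')]; simp
        · rw [decide_eq_true (show (a, nb v 2) ∈ S from hu')]; simp
      change decide ((a, v) ∈ S) = !(decide ((a, nb v 0) ∈ S) || decide ((a, nb v 1) ∈ S) ||
          decide ((a, nb v 2) ∈ S))
      rw [h5]
      exact decide_eq_false hv
  calc 28 * k = ∑ _a : Fin k, 28 := by simp [mul_comm]
    _ ≤ _ := Finset.sum_le_sum (fun a _ => h a)

theorem exists_set (k : ℕ) : ∃ S : Finset (Fin k × W), IsIndependent (Gk k) S ∧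
    IsDominating (Gk k) S ∧ S.card = 28 * k := by
  refine ⟨univ.filter (fun x => s0 x.2 = true), ?_, ?_, ?_⟩
  · rintro x hx y hy ⟨_, i, hi⟩
    rw [mem_filter] at hx hy
    have h := s0_eqs x.2
    have hy' : s0 (nb x.2 i) = true := by rw [hi]; exact hy.2
    rw [hx.2] at h
    fin_cases i
    · rw [show s0 (nb x.2 0) = true from hy'] at h
      simp at h
    · rw [show s0 (nb x.2 1) = true from hy'] at h
      simp at h
    · rw [show s0 (nb x.2 2) = true from hy'] at h
      simp at h
  · intro x hx
    rw [mem_filter] at hx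
    have hx' : s0 x.2 = false := by
      by_contra hc
      exact hx ⟨mem_univ _, by simpa using hc⟩
    have h := s0_eqs x.2
    rw [hx'] at h
    have h' : (s0 (nb x.2 0) || s0 (nb x.2 1) || s0 (nb x.2 2)) = true := by
      generalize (s0 (nb x.2 0) || s0 (nb x.2 1) || s0 (nb x.2 2)) = b at h
      revert h
      cases b <;> decide
    rw [Bool.or_eq_true, Bool.or_eq_true] at h'
    rcases h' with (h' | h') | h'
    · exact ⟨(x.1, nb x.2 0), by simp [h'], rfl, 0, rfl⟩
    · exact ⟨(x.1, nb x.2 1), by simp [h'], rfl, 1, rfl⟩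
    · exact ⟨(x.1, nb x.2 2), by simp [h'], rfl, 2, rfl⟩
  · rw [card_sum, Fintype.sum_prod_type]
    have h : ∀ a : Fin k, ∑ v : W,
        (decide ((a, v) ∈ univ.filter (fun x : Fin k × W => s0 x.2 = true))).toNat = 28 := by
      intro a
      rw [← s0_sum]
      refine Finset.sum_congr rfl (fun v _ => ?_)
      cases h : s0 v <;> simp [h]
    rw [Finset.sum_congr rfl (fun a _ => h a)]
    simp [mul_comm]

theorem indep_eq (k : ℕ) : indepDomNumber (Gk k) = 28 * k := by
  obtain ⟨S, h1, h2, h3⟩ := exists_set k
  refine le_antisymm (Nat.sInf_le ⟨S, h1, h2, h3⟩) ?_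
  refine le_csInf ⟨_, S, h1, h2, h3⟩ ?_
  rintro b ⟨T, h4, h5, rfl⟩
  exact lower_bound k T h4 h5

/-- The matching which joins opposite literals. -/
def Mk (k : ℕ) : Finset (Sym2 (Fin k × W)) :=
  univ.image (fun x : Fin k × K => s((x.1, P x.2), (x.1, N x.2)))

theorem Mk_maximal (k : ℕ) : IsMaximalMatching (Gk k) (Mk k) := by
  refine ⟨⟨?_, ?_⟩, ?_⟩
  · intro e he
    obtain ⟨x, _, rfl⟩ := mem_image.1 he
    rw [SimpleGraph.mem_edgeSet]
    exact ⟨rfl, 0, nb_P x.2⟩
  · intro e he f hf hne v hve hvf
    obtain ⟨x, _, rfl⟩ := mem_image.1 he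
    obtain ⟨y, _, rfl⟩ := mem_image.1 hf
    apply hne
    rw [Sym2.mem_iff] at hve hvf
    have hxy : x = y := by
      rcases hve with rfl | rfl <;> rcases hvf with h | h <;>
        (have h1 := (Prod.ext_iff.1 h).1; have h2 := (Prod.ext_iff.1 h).2
         simp only at h1 h2
         exact Prod.ext h1 (disj _ _ (by tauto)))
    rw [hxy]
  · intro M' hM hM'
    refine Finset.Subset.antisymm ?_ hM
    intro e he
    have hE := hM'.1 e he
    induction e with
    | _ x y =>
      rw [SimpleGraph.mem_edgeSet] at hE
      obtain ⟨h1, i, hi⟩ := hE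
      have key : ∀ c : K, (∃ v, v ∈ s(x, y) ∧ v ∈ s((x.1, P c), (x.1, N c))) →
          s(x, y) ∈ Mk k := by
        rintro c ⟨v, hv1, hv2⟩
        have hmem : s((x.1, P c), (x.1, N c)) ∈ Mk k := mem_image.2 ⟨(x.1, c), mem_univ _, rfl⟩
        by_contra hcon
        have hne : s(x, y) ≠ s((x.1, P c), (x.1, N c)) := fun h => hcon (h ▸ hmem)
        exact hM'.2 _ he _ (hM hmem) hne v hv1 hv2
      rcases cov x.2 i with ⟨c, hc⟩ | ⟨c, hc⟩
      · refine key c ⟨x, Sym2.mem_mk_left _ _, ?_⟩
        rw [Sym2.mem_iff]
        rcases hc with hc | hc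
        · exact Or.inl (Prod.ext rfl hc)
        · exact Or.inr (Prod.ext rfl hc)
      · refine key c ⟨y, Sym2.mem_mk_right _ _, ?_⟩
        rw [Sym2.mem_iff]
        rw [hi] at hc
        rcases hc with hc | hc
        · exact Or.inl (Prod.ext h1.symm hc)
        · exact Or.inr (Prod.ext h1.symm hc)

theorem sat_le (k : ℕ) : saturationNumber (Gk k) ≤ 27 * k := by
  have h : saturationNumber (Gk k) ≤ (Mk k).card := Nat.sInf_le ⟨Mk k, Mk_maximal k, rfl⟩
  refine h.trans ((Finset.card_image_le).trans ?_)
  rw [Finset.card_univ, Fintype.card_prod, Fintype.card_fin]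
  have : Fintype.card K = 27 := by decide
  rw [this, mul_comm]

theorem connected_one : (Gk 1).Connected := by
  have h : ∀ n : ℕ, ∀ v : W, dep v = n → (Gk 1).Reachable (0, v) (0, .inr 2) := by
    intro n
    induction n using Nat.strong_induction_on with
    | _ n ih =>
      intro v hv
      rcases Nat.eq_zero_or_pos n with h0 | h0
      · rw [dep_zero v (by omega)]
      · obtain ⟨i, hi⟩ := dep_pos v (by omega)
        have h1 : (Gk 1).Adj (0, v) (0, nb v i) := ⟨rfl, i, rfl⟩
        exact h1.reachable.trans (ih _ (by omega) _ rfl)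
  have : Nonempty (Fin 1 × W) := ⟨(0, .inr 2)⟩
  refine ⟨fun x y => ?_⟩
  have hx : x = (0, x.2) := Prod.ext (Subsingleton.elim _ _) rfl
  have hy : y = (0, y.2) := Prod.ext (Subsingleton.elim _ _) rfl
  rw [hx, hy]
  exact (h _ _ rfl).trans (h _ _ rfl).symm

/-- The bound `i(G) ≤ μ*(G)` fails for cubic graphs: for every `k` there is a `3`-regular graph `G`
with `90 k` vertices, `i(G) = 28 k` and `μ*(G) ≤ 27 k`, connected for `k = 1`. -/
theorem result (k : ℕ) : ∃ (V : Type) (_ : Fintype V) (G : SimpleGraph V),
    Fintype.card V = 90 * k ∧ (∀ v, (G.neighborSet v).ncard = 3) ∧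
    indepDomNumber G = 28 * k ∧ saturationNumber G ≤ 27 * k ∧ (k = 1 → G.Connected) := by
  refine ⟨Fin k × W, inferInstance, Gk k, ?_, regular k, indep_eq k, sat_le k, ?_⟩
  · rw [Fintype.card_prod, Fintype.card_fin]
    have : Fintype.card W = 90 := by decide
    rw [this, mul_comm]
  · rintro rfl
    exact connected_one

end Pool.Agent.Results.MP_763dcb_co.NinetyVertices
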